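import Pool.Agent.helper62.LL.SpecG

/-!
# MP_07c750, project LL: row CRS, the time during which two geodesics are close
-/

set_option autoImplicit false

open scoped MatrixGroups ContDiff Topology UpperHalfPlane
open UpperHalfPlane MeasureTheory Filter Set

namespace Pool.Agent.LL

theorem CRS_coe (g : SL(2, ℝ)) :
    0 < g.1 1 0 ^ 2 + g.1 1 1 ^ 2 ∧ (g • I : ℍ).im = 1 / (g.1 1 0 ^ 2 + g.1 1 1 ^ 2) ∧
      (g • I : ℍ).re = (g.1 0 0 * g.1 1 0 + g.1 0 1 * g.1 1 1) / (g.1 1 0 ^ 2 + g.1 1 1 ^ 2) := by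
  have hdet : g.1 0 0 * g.1 1 1 - g.1 0 1 * g.1 1 0 = 1 := by
    have := g.2
    rwa [Matrix.det_fin_two] at this
  have hD : 0 < g.1 1 0 ^ 2 + g.1 1 1 ^ 2 := by
    have h0 : 0 ≤ g.1 1 0 ^ 2 + g.1 1 1 ^ 2 := by positivity
    rcases h0.lt_or_eq with h | h
    · exact h
    · have h1 : g.1 1 0 = 0 := by nlinarith [sq_nonneg (g.1 1 0), sq_nonneg (g.1 1 1)]
      have h2 : g.1 1 1 = 0 := by nlinarith [sq_nonneg (g.1 1 0), sq_nonneg (g.1 1 1)]
      rw [h1, h2] at hdet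
      norm_num at hdet
  have h1 : ((g • I : ℍ) : ℂ) = (((g.1 0 0 : ℝ) : ℂ) * Complex.I + ((g.1 0 1 : ℝ) : ℂ)) /
      (((g.1 1 0 : ℝ) : ℂ) * Complex.I + ((g.1 1 1 : ℝ) : ℂ)) := coe_specialLinearGroup_apply g I
  have e1 : (((g.1 0 0 : ℝ) : ℂ) * Complex.I + ((g.1 0 1 : ℝ) : ℂ)).re = g.1 0 1 := by simp
  have e2 : (((g.1 0 0 : ℝ) : ℂ) * Complex.I + ((g.1 0 1 : ℝ) : ℂ)).im = g.1 0 0 := by simp
  have e3 : (((g.1 1 0 : ℝ) : ℂ) * Complex.I + ((g.1 1 1 : ℝ) : ℂ)).re = g.1 1 1 := by simp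
  have e4 : (((g.1 1 0 : ℝ) : ℂ) * Complex.I + ((g.1 1 1 : ℝ) : ℂ)).im = g.1 1 0 := by simp
  have e5 : Complex.normSq (((g.1 1 0 : ℝ) : ℂ) * Complex.I + ((g.1 1 1 : ℝ) : ℂ)) =
      g.1 1 0 ^ 2 + g.1 1 1 ^ 2 := by
    rw [Complex.normSq_apply, e3, e4]
    ring
  refine ⟨hD, ?_, ?_⟩
  · have h2 : (g • I : ℍ).im = (((g • I : ℍ) : ℂ)).im := rfl
    rw [h2, h1, Complex.div_im, e1, e2, e3, e4, e5, ← sub_div, hdet]
  · have h2 : (g • I : ℍ).re = (((g • I : ℍ) : ℂ)).re := rfl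
    rw [h2, h1, Complex.div_re, e1, e2, e3, e4, e5, ← add_div]
    congr 1
    ring

/-- the entries of `h * aM t` -/
theorem CRS_ent (h : SL(2, ℝ)) (t : ℝ) (i : Fin 2) :
    (h * RS.aM t).1 i 0 = h.1 i 0 * Real.exp (t / 2) ∧ (h * RS.aM t).1 i 1 = h.1 i 1 * Real.exp (-(t / 2)) := by
  have h1 : (h * RS.aM t).1 = h.1 * (RS.aM t).1 := rfl
  constructor
  · rw [h1, Matrix.mul_apply, Fin.sum_univ_two]
    simp [RS.aM]
  · rw [h1, Matrix.mul_apply, Fin.sum_univ_two]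
    simp [RS.aM]

/-- the point `aM s • I` -/
theorem CRS_w (s : ℝ) : (RS.aM s • I : ℍ).im = Real.exp s ∧ (RS.aM s • I : ℍ).re = 0 := by
  obtain ⟨_, h1, h2⟩ := CRS_coe (RS.aM s)
  have e1 : (RS.aM s).1 1 0 = 0 := by simp [RS.aM]
  have e2 : (RS.aM s).1 1 1 = Real.exp (-(s / 2)) := by simp [RS.aM]
  have e3 : (RS.aM s).1 0 1 = 0 := by simp [RS.aM]
  constructor
  · rw [h1, e1, e2, ← Real.exp_nat_mul, one_div, zero_pow two_ne_zero, zero_add, ← Real.exp_neg]
    congr 1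
    push_cast
    ring
  · rw [h2, e1, e3]
    simp

theorem CRS_cosh (ρ : ℝ) (h0 : 0 ≤ ρ) (h1 : ρ ≤ 1) : Real.cosh ρ - 1 ≤ ρ ^ 2 := by
  have h2 := Real.cosh_le_exp_half_sq ρ
  have h3 : ρ ^ 2 ≤ 1 := by nlinarith
  have h4 : 0 ≤ ρ ^ 2 := sq_nonneg ρ
  have h5 := Real.abs_exp_sub_one_sub_id_le (x := ρ ^ 2 / 2) (by rw [abs_of_nonneg (by linarith)]; linarith)
  have h6 := (abs_le.mp h5).2
  nlinarith

/-- the denominator -/
noncomputable def CRS_D (h : SL(2, ℝ)) (t : ℝ) : ℝ := (h.1 1 0 * Real.exp (t / 2)) ^ 2 + (h.1 1 1 * Real.exp (-(t / 2))) ^ 2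

/-- the numerator -/
noncomputable def CRS_F (h : SL(2, ℝ)) (t : ℝ) : ℝ := h.1 0 0 * h.1 1 0 * Real.exp (2 * t) + h.1 0 1 * h.1 1 1

theorem CRS_key (h : SL(2, ℝ)) (ρ s t : ℝ) (h0 : 0 < ρ) (h1 : ρ ≤ 1) (hs0 : 0 ≤ s) (hs1 : s ≤ 1 / 4) (_ht0 : 0 ≤ t)
    (ht1 : t ≤ 1 / 4) (hd : dist (RS.aM s • I) ((h * RS.aM t) • I) < ρ) :
    |s - Real.log (1 / CRS_D h t)| < ρ ∧ |CRS_F h t| ≤ 30 * ρ := by
  obtain ⟨hD, hi, hr⟩ := CRS_coe (h * RS.aM t)
  obtain ⟨wi, wr⟩ := CRS_w s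
  rw [(CRS_ent h t 1).1, (CRS_ent h t 1).2] at hD hi hr
  rw [(CRS_ent h t 0).1, (CRS_ent h t 0).2] at hr
  have hDD : (h.1 1 0 * Real.exp (t / 2)) ^ 2 + (h.1 1 1 * Real.exp (-(t / 2))) ^ 2 = CRS_D h t := rfl
  rw [hDD] at hD hi hr
  have hlog : |s - Real.log (1 / CRS_D h t)| < ρ := by
    have h2 := dist_log_im_le (RS.aM s • I) ((h * RS.aM t) • I)
    rw [wi, hi, Real.log_exp, Real.dist_eq] at h2
    exact lt_of_le_of_lt h2 hd
  refine ⟨hlog, ?_⟩
  have hy0 : 0 < 1 / CRS_D h t := one_div_pos.mpr hD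
  obtain ⟨y, hy⟩ : ∃ y, y = 1 / CRS_D h t := ⟨_, rfl⟩
  obtain ⟨X, hX⟩ : ∃ X, X = ((h * RS.aM t) • I : ℍ).re := ⟨_, rfl⟩
  rw [← hy] at hi hy0 hlog
  have hexp := Real.exp_one_lt_d9
  have he0 := Real.exp_pos 1
  have e2 : Real.exp 2 ≤ 7.4 := by
    have : Real.exp 2 = Real.exp 1 * Real.exp 1 := by
      rw [← Real.exp_add]
      norm_num
    rw [this]
    nlinarith
  have hyu : y ≤ Real.exp (s + ρ) := by
    rw [← Real.exp_log hy0]
    apply Real.exp_le_exp.mpr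
    linarith [(abs_lt.mp hlog).1]
  have hyl : Real.exp (s - ρ) ≤ y := by
    rw [← Real.exp_log hy0]
    apply Real.exp_le_exp.mpr
    linarith [(abs_lt.mp hlog).2]
  have hD1 : CRS_D h t ≤ Real.exp 1 := by
    have h2 : CRS_D h t = 1 / y := by rw [hy, one_div_one_div]
    rw [h2, div_le_iff₀ hy0]
    have h3 : Real.exp (-1) ≤ y := le_trans (Real.exp_le_exp.mpr (by linarith)) hyl
    have h4 : Real.exp 1 * Real.exp (-1) = 1 := by rw [← Real.exp_add]; simp
    calc (1 : ℝ) = Real.exp 1 * Real.exp (-1) := h4.symm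
      _ ≤ Real.exp 1 * y := by gcongr
  have hXsq : X ^ 2 ≤ 2 * (Real.exp s * y) * (Real.cosh (dist (RS.aM s • I) ((h * RS.aM t) • I)) - 1) := by
    rw [cosh_dist', wi, wr, hi, ← hX]
    have h2 : 0 < 2 * (Real.exp s * y) := by positivity
    have h3 : 2 * (Real.exp s * y) * (((0 - X) ^ 2 + Real.exp s ^ 2 + y ^ 2) / (2 * Real.exp s * y) - 1) =
        X ^ 2 + (Real.exp s - y) ^ 2 := by
      have h4 : Real.exp s ≠ 0 := (Real.exp_pos s).ne'
      have h5 : y ≠ 0 := hy0.ne'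
      field_simp
      ring
    rw [h3]
    nlinarith [sq_nonneg (Real.exp s - y)]
  have hcosh : Real.cosh (dist (RS.aM s • I) ((h * RS.aM t) • I)) - 1 ≤ ρ ^ 2 := by
    refine le_trans ?_ (CRS_cosh ρ h0.le h1)
    have : Real.cosh (dist (RS.aM s • I) ((h * RS.aM t) • I)) ≤ Real.cosh ρ := by
      rw [Real.cosh_le_cosh, abs_of_nonneg dist_nonneg, abs_of_pos h0]
      exact hd.le
    linarith
  have hyy : Real.exp s * y ≤ 7.4 := by
    calc Real.exp s * y ≤ Real.exp s * Real.exp (s + ρ) := by gcongr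
      _ = Real.exp (s + (s + ρ)) := (Real.exp_add _ _).symm
      _ ≤ Real.exp 2 := Real.exp_le_exp.mpr (by linarith)
      _ ≤ 7.4 := e2
  have hX4 : |X| ≤ 4 * ρ := by
    apply abs_le_of_sq_le_sq _ (by positivity)
    calc X ^ 2 ≤ 2 * (Real.exp s * y) * (Real.cosh (dist (RS.aM s • I) ((h * RS.aM t) • I)) - 1) := hXsq
      _ ≤ 2 * (Real.exp s * y) * ρ ^ 2 := by
        apply mul_le_mul_of_nonneg_left hcosh
        positivity
      _ ≤ 2 * 7.4 * ρ ^ 2 := by gcongr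
      _ ≤ (4 * ρ) ^ 2 := by nlinarith [sq_nonneg ρ]
  have hF : CRS_F h t = Real.exp t * (X * CRS_D h t) := by
    have h2 : X * CRS_D h t = h.1 0 0 * Real.exp (t / 2) * (h.1 1 0 * Real.exp (t / 2)) +
        h.1 0 1 * Real.exp (-(t / 2)) * (h.1 1 1 * Real.exp (-(t / 2))) := by
      rw [hX, hr, div_mul_cancel₀ _ hD.ne']
    rw [h2]
    unfold CRS_F
    have a1 : Real.exp (2 * t) = Real.exp t * (Real.exp (t / 2) * Real.exp (t / 2)) := by
      rw [← Real.exp_add, ← Real.exp_add]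
      congr 1
      ring
    have a2 : (1 : ℝ) = Real.exp t * (Real.exp (-(t / 2)) * Real.exp (-(t / 2))) := by
      rw [← Real.exp_add, ← Real.exp_add, ← Real.exp_zero]
      congr 1
      ring
    calc h.1 0 0 * h.1 1 0 * Real.exp (2 * t) + h.1 0 1 * h.1 1 1
        = h.1 0 0 * h.1 1 0 * Real.exp (2 * t) + h.1 0 1 * h.1 1 1 * 1 := by ring
      _ = h.1 0 0 * h.1 1 0 * (Real.exp t * (Real.exp (t / 2) * Real.exp (t / 2))) +
          h.1 0 1 * h.1 1 1 * (Real.exp t * (Real.exp (-(t / 2)) * Real.exp (-(t / 2)))) := by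
        rw [← a1, ← a2]
      _ = _ := by ring
  rw [hF, abs_mul, abs_mul, abs_of_pos (Real.exp_pos t), abs_of_pos hD]
  have het : Real.exp t ≤ Real.exp 1 := Real.exp_le_exp.mpr (by linarith)
  calc Real.exp t * (|X| * CRS_D h t) ≤ Real.exp 1 * ((4 * ρ) * Real.exp 1) := by gcongr
    _ = 4 * (Real.exp 1 * Real.exp 1) * ρ := by ring
    _ = 4 * Real.exp 2 * ρ := by
      rw [← Real.exp_add]
      norm_num
    _ ≤ 4 * 7.4 * ρ := by gcongr
    _ ≤ 30 * ρ := by nlinarith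

/-- the set of times -/
def CRS_T (h : SL(2, ℝ)) (ρ : ℝ) : Set ℝ := {t | t ∈ Icc (0 : ℝ) (1 / 4) ∧ |CRS_F h t| ≤ 30 * ρ}

theorem CRS_Fc (h : SL(2, ℝ)) : Continuous (CRS_F h) := by
  unfold CRS_F
  fun_prop

theorem CRS_Tm (h : SL(2, ℝ)) (ρ : ℝ) : MeasurableSet (CRS_T h ρ) := by
  have h1 : IsClosed {t | |CRS_F h t| ≤ 30 * ρ} := isClosed_le (CRS_Fc h).abs continuous_const
  exact (isClosed_Icc.inter h1).measurableSet

theorem CRS_Tv (h : SL(2, ℝ)) (ρ : ℝ) : volume (CRS_T h ρ) ≤ ENNReal.ofReal (1 / 4) := by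
  refine (measure_mono (fun t ht => ht.1)).trans ?_
  rw [Real.volume_Icc]
  simp

/-- the measure of the set of times -/
theorem CRS_m (h : SL(2, ℝ)) (ρ : ℝ) (h0 : 0 < ρ) : volume.real (CRS_T h ρ) * th h ≤ 120 * ρ := by
  have hm4 : volume.real (CRS_T h ρ) ≤ 1 / 4 := by
    have := ENNReal.toReal_mono ENNReal.ofReal_ne_top (CRS_Tv h ρ)
    rwa [ENNReal.toReal_ofReal (by norm_num)] at this
  have hm0 : 0 ≤ volume.real (CRS_T h ρ) := measureReal_nonneg
  obtain ⟨A, hA⟩ : ∃ A, A = |h.1 0 0 * h.1 1 0| := ⟨_, rfl⟩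
  obtain ⟨B, hB⟩ : ∃ B, B = |h.1 0 1 * h.1 1 1| := ⟨_, rfl⟩
  have hth : th h = max A B := by rw [hA, hB]; rfl
  have hA0 : 0 ≤ A := by rw [hA]; positivity
  have hB0 : 0 ≤ B := by rw [hB]; positivity
  rw [hth]
  rcases le_or_gt (B / 4) A with hc | hc
  · -- the diameter is small
    have hmax : max A B ≤ 4 * A := max_le (by linarith) (by linarith)
    rcases hA0.lt_or_eq with hA1 | hA1
    · have hdiam : volume (CRS_T h ρ) ≤ ENNReal.ofReal (30 * ρ / A) := by
        refine (Real.volume_le_diam _).trans ?_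
        apply Metric.ediam_le_of_forall_dist_le
        intro t₁ h1 t₂ h2
        rw [Real.dist_eq]
        have key : ∀ u v : ℝ, u ∈ CRS_T h ρ → v ∈ CRS_T h ρ → u ≤ v → v - u ≤ 30 * ρ / A := by
          intro u v hu hv huv
          rw [le_div_iff₀ hA1]
          have a1 : CRS_F h v - CRS_F h u = h.1 0 0 * h.1 1 0 * (Real.exp (2 * v) - Real.exp (2 * u)) := by
            unfold CRS_F
            ring
          have a2 : 2 * (v - u) ≤ Real.exp (2 * v) - Real.exp (2 * u) := by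
            have b1 : Real.exp (2 * v) = Real.exp (2 * u) * Real.exp (2 * (v - u)) := by
              rw [← Real.exp_add]
              congr 1
              ring
            have b2 := Real.add_one_le_exp (2 * (v - u))
            have b3 : 1 ≤ Real.exp (2 * u) := Real.one_le_exp (by linarith [hu.1.1])
            rw [b1]
            have b4 : 0 ≤ 2 * (v - u) := by linarith
            nlinarith
          have a3 : |CRS_F h v - CRS_F h u| ≤ 60 * ρ := by
            refine (abs_sub _ _).trans ?_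
            linarith [hu.2, hv.2]
          rw [a1, abs_mul, ← hA, abs_of_nonneg (by linarith [a2] : 0 ≤ Real.exp (2 * v) - Real.exp (2 * u))] at a3
          have a4 : A * (2 * (v - u)) ≤ A * (Real.exp (2 * v) - Real.exp (2 * u)) := by gcongr
          linarith
        rcases le_total t₁ t₂ with h3 | h3
        · rw [abs_sub_comm, abs_of_nonneg (by linarith)]
          exact key t₁ t₂ h1 h2 h3
        · rw [abs_of_nonneg (by linarith)]
          exact key t₂ t₁ h2 h1 h3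
      have h5 : volume.real (CRS_T h ρ) ≤ 30 * ρ / A := by
        have := ENNReal.toReal_mono ENNReal.ofReal_ne_top hdiam
        rwa [ENNReal.toReal_ofReal (by positivity)] at this
      calc volume.real (CRS_T h ρ) * max A B ≤ (30 * ρ / A) * (4 * A) := by gcongr
        _ = 120 * ρ := by
          field_simp
          norm_num
    · have : max A B ≤ 0 := by linarith
      nlinarith
  · -- the set is empty or `B` is small
    rcases (CRS_T h ρ).eq_empty_or_nonempty with he | ⟨t, ht⟩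
    · rw [he]
      simp only [measureReal_empty, zero_mul]
      positivity
    · have hmax : max A B = B := max_eq_right (by linarith)
      rw [hmax]
      have h1 : Real.exp (2 * t) ≤ 2 := by
        have h2 : Real.exp (2 * t) ≤ Real.exp (1 / 2) := Real.exp_le_exp.mpr (by linarith [ht.1.2])
        have h3 : Real.exp (1 / 2) * Real.exp (1 / 2) = Real.exp 1 := by
          rw [← Real.exp_add]
          norm_num
        have h4 := Real.exp_one_lt_d9
        have h5 := Real.exp_pos (1 / 2)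
        nlinarith
      have h2 : B - A * Real.exp (2 * t) ≤ 30 * ρ := by
        have h3 := ht.2
        unfold CRS_F at h3
        have h4 : |h.1 0 1 * h.1 1 1| - |h.1 0 0 * h.1 1 0 * Real.exp (2 * t)| ≤
            |h.1 0 0 * h.1 1 0 * Real.exp (2 * t) + h.1 0 1 * h.1 1 1| := by
          have := abs_sub_abs_le_abs_sub (h.1 0 1 * h.1 1 1) (-(h.1 0 0 * h.1 1 0 * Real.exp (2 * t)))
          rw [abs_neg, sub_neg_eq_add, add_comm (h.1 0 1 * h.1 1 1)] at this
          exact this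
        rw [abs_mul (h.1 0 0 * h.1 1 0), abs_of_pos (Real.exp_pos _), ← hA, ← hB] at h4
        linarith
      have h3 : B / 2 ≤ 30 * ρ := by
        have : A * Real.exp (2 * t) ≤ A * 2 := by gcongr
        linarith
      calc volume.real (CRS_T h ρ) * B ≤ 1 / 4 * (60 * ρ) := by
            gcongr
            linarith
        _ ≤ 120 * ρ := by linarith

/-- the area -/
theorem CRS_area (h : SL(2, ℝ)) (ρ : ℝ) (h0 : 0 < ρ) (h1 : ρ ≤ 1) :
    (volume : Measure (ℝ × ℝ)).real {u | u ∈ Sq ∧ dist (RS.aM u.1 • I) ((h * RS.aM u.2) • I) < ρ} ≤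
      2 * ρ * volume.real (CRS_T h ρ) := by
  obtain ⟨L, hL⟩ : ∃ L : ℝ → ℝ, L = fun t => Real.log (1 / CRS_D h t) := ⟨_, rfl⟩
  have hLm : Measurable L := by
    rw [hL]
    apply Real.measurable_log.comp
    apply Measurable.div measurable_const
    unfold CRS_D
    apply Continuous.measurable
    fun_prop
  obtain ⟨S, hS⟩ : ∃ S : Set (ℝ × ℝ), S = {u | u.2 ∈ CRS_T h ρ ∧ |u.1 - L u.2| < ρ} := ⟨_, rfl⟩
  have hsub : {u : ℝ × ℝ | u ∈ Sq ∧ dist (RS.aM u.1 • I) ((h * RS.aM u.2) • I) < ρ} ⊆ S := by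
    rintro u ⟨hu, hd⟩
    have hu1 : u.1 ∈ Icc (0 : ℝ) (1 / 4) := hu.1
    have hu2 : u.2 ∈ Icc (0 : ℝ) (1 / 4) := hu.2
    obtain ⟨k1, k2⟩ := CRS_key h ρ u.1 u.2 h0 h1 hu1.1 hu1.2 hu2.1 hu2.2 hd
    rw [hS, hL]
    exact ⟨⟨hu2, k2⟩, k1⟩
  have hSm : MeasurableSet S := by
    have m1 : MeasurableSet {u : ℝ × ℝ | u.2 ∈ CRS_T h ρ} := measurable_snd (CRS_Tm h ρ)
    have m2 : MeasurableSet {u : ℝ × ℝ | |u.1 - L u.2| < ρ} := by
      have m3 : Measurable fun u : ℝ × ℝ => |u.1 - L u.2| := (measurable_fst.sub (hLm.comp measurable_snd)).abs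
      exact measurableSet_lt m3 measurable_const
    rw [hS]
    exact m1.inter m2
  have hSv : volume S ≤ ENNReal.ofReal (2 * ρ) * volume (CRS_T h ρ) := by
    rw [Measure.volume_eq_prod, Measure.prod_apply_symm hSm]
    calc ∫⁻ t, volume ((fun x => (x, t)) ⁻¹' S) ≤
          ∫⁻ t, (CRS_T h ρ).indicator (fun _ => ENNReal.ofReal (2 * ρ)) t := by
          apply lintegral_mono
          intro t
          by_cases ht : t ∈ CRS_T h ρ
          · have e1 : (fun x => (x, t)) ⁻¹' S ⊆ Metric.ball (L t) ρ := by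
              intro x hx
              rw [hS] at hx
              rw [Metric.mem_ball, Real.dist_eq]
              exact hx.2
            rw [indicator_of_mem ht]
            refine (measure_mono e1).trans ?_
            rw [Real.volume_ball]
          · have e1 : (fun x => (x, t)) ⁻¹' S = ∅ := by
              ext x
              rw [hS]
              exact ⟨fun hx => ht hx.1, fun hx => hx.elim⟩
            show volume ((fun x => (x, t)) ⁻¹' S) ≤ _
            rw [e1, measure_empty]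
            exact zero_le
      _ = ENNReal.ofReal (2 * ρ) * volume (CRS_T h ρ) := by
          rw [lintegral_indicator (CRS_Tm h ρ), setLIntegral_const]
  have hT : volume (CRS_T h ρ) ≠ ⊤ := ne_top_of_le_ne_top ENNReal.ofReal_ne_top (CRS_Tv h ρ)
  have h2 := ENNReal.toReal_mono (ENNReal.mul_ne_top ENNReal.ofReal_ne_top hT) ((measure_mono hsub).trans hSv)
  rw [ENNReal.toReal_mul, ENNReal.toReal_ofReal (by positivity)] at h2
  exact h2

theorem CRS_proof : CRS_stmt := by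
  refine ⟨240, by norm_num, fun h ρ h0 h1 => ?_⟩
  have ha := CRS_area h ρ h0 h1
  have hm := CRS_m h ρ h0
  have hm4 : volume.real (CRS_T h ρ) ≤ 1 / 4 := by
    have := ENNReal.toReal_mono ENNReal.ofReal_ne_top (CRS_Tv h ρ)
    rwa [ENNReal.toReal_ofReal (by norm_num)] at this
  have hth : 0 ≤ th h := le_trans (abs_nonneg _) (le_max_left _ _)
  constructor
  · refine ha.trans ?_
    nlinarith
  · calc _ ≤ 2 * ρ * volume.real (CRS_T h ρ) * th h := by gcongr
      _ = 2 * ρ * (volume.real (CRS_T h ρ) * th h) := by ring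
      _ ≤ 2 * ρ * (120 * ρ) := by gcongr
      _ = 240 * ρ ^ 2 := by ring

end Pool.Agent.LL
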